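import Mathlib
import Pool.Agent.N679.RG.All5
import Pool.Agent.N679.RG.FinA
import Pool.Agent.N679.RG.PHI

/-!
# The order of magnitude of the number of Goldbach representations, with clusters of primes around both summands, for
5 / 9 of the even numbers of every window of length `λ log x`, or almost all multiples of a bounded number

For every `k ≥ 0` and `ε > 0` there are `Q` and `c, δ > 0` such that for every `λ > 0` there is a `κ > 0`: for all large
`x` and all `T`, `λ log x ≤ T ≤ x / 1000`, at least one of the following two statements holds.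

* At least `(5 / 9 - ε) T / 2` of the even `m` in `(x, x + T]` (there are about `T / 2`) are such that for at least
  `δ T ^ (2 k)` pairs of vectors `h, h'` of `k` different nonzero integers of `[-T, T]` there are at least
  `κ m ^ 2 / (φ(m) (log m) ^ (2 k + 2))` primes `p` for which `m - p`, all `p + h i` and all `m - p + h' i` are prime.
* For some `q ≤ Q` and some `X` with `c T ≤ X ≤ T` all but at most `ε X / q` of the multiples `d ≤ X` of `q` are such
  that for at least `δ T ^ (2 k)` vectors `g` of `2 k` different integers of `[-T, T]`, different from `0` and `d`, there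
  are at least `κ x / (log x) ^ (2 k + 2)` primes `p ≤ 2 x` for which `p + d` and all `p + g i` are prime.
-/

set_option autoImplicit false

namespace Pool.Agent.Results.MP_629a14_nt.ClusteredRepresentations

open Finset Filter

/-- the vectors of `k` different nonzero integers in `[-T, T]` -/
noncomputable def vectors (k T : ℕ) : Finset (Fin k → ℤ) :=
  (Fintype.piFinset (fun _ : Fin k => Icc (-(T : ℤ)) T)).filter (fun h => Function.Injective h ∧ ∀ i, h i ≠ 0)

/-- the number of the primes `p ≤ m` such that `m - p`, all `p + h i` and all `m - p + h' i` are prime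
(`k = 0`: the number of the ordered representations of `m` as a sum of two primes) -/
def representations {k : ℕ} (m : ℕ) (h h' : Fin k → ℤ) : ℕ :=
  ((range (m + 1)).filter (fun p : ℕ => p.Prime ∧ (m - p).Prime ∧ (∀ i, ((p : ℤ) + h i).toNat.Prime) ∧
    ∀ i, ((m : ℤ) - p + h' i).toNat.Prime)).card

/-- the number of the primes `p ≤ x` such that `p + d` and all `p + g i` are prime -/
def primePairs {k : ℕ} (x d : ℕ) (g : Fin k → ℤ) : ℕ :=
  ((Icc 1 x).filter (fun p : ℕ => p.Prime ∧ (p + d).Prime ∧ ∀ i, ((p : ℤ) + g i).toNat.Prime)).card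

open Classical in
/-- `m` has the right number of representations, with clusters around both summands -/
def Represented (k : ℕ) (δ κ : ℝ) (T m : ℕ) : Prop :=
  δ * (T : ℝ) ^ (2 * k) ≤ (((vectors k T ×ˢ vectors k T).filter (fun v =>
    κ * ((m : ℝ) ^ 2 / (Nat.totient m * (Real.log m) ^ (2 * k + 2))) ≤ (representations m v.1 v.2 : ℝ))).card : ℝ)

open Classical in
/-- `d` is the difference of the right number of pairs of primes, with clusters -/
def PairDistance (k : ℕ) (δ κ : ℝ) (T x d : ℕ) : Prop :=
  δ * (T : ℝ) ^ (2 * k) ≤ (((vectors (2 * k) T).filter (fun g => (∀ i, g i ≠ (d : ℤ)) ∧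
    κ * (x / (Real.log x) ^ (2 * k + 2)) ≤ (primePairs (2 * x) d g : ℝ))).card : ℝ)

open Classical in
theorem result : ∀ (k : ℕ) (ε : ℝ), 0 < ε → ∃ (Q : ℕ) (c δ : ℝ), 0 < c ∧ 0 < δ ∧
    ∀ lam : ℝ, 0 < lam → ∃ κ : ℝ, 0 < κ ∧ ∀ᶠ x : ℕ in atTop, ∀ T : ℕ, lam * Real.log x ≤ T → 1000 * T ≤ x →
      (5 / 9 - ε) * (T / 2) ≤ (((Ioc x (x + T)).filter (fun m => Even m ∧ Represented k δ κ T m)).card : ℝ) ∨
      ∃ q X : ℕ, 1 ≤ q ∧ q ≤ Q ∧ c * T ≤ (X : ℝ) ∧ X ≤ T ∧
        (((Icc 1 X).filter (fun d => q ∣ d ∧ ¬ PairDistance k δ κ T x d)).card : ℝ) ≤ ε * (X / q) :=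
  Pool.Agent.N679.RG.conclG Pool.Agent.N679.RG.fink Pool.Agent.N679.RG.phi_window

end Pool.Agent.Results.MP_629a14_nt.ClusteredRepresentations
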