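import Mathlib
import Pool.Agent.N733.DG.I

/-!
# Binary Goldbach representations by arbitrary dense sets of primes

Let `A` be an ARBITRARY set of primes. For almost all multiples `n` of a number `M` which is divisible by all small
primes the number of representations `n = p + q` with a prime `p` in `A` and an arbitrary prime `q` is
asymptotically `(n / φ(n)) A(n) / log n`, uniformly in `A`. If `A` and `B` are two sets of primes with
`A(x) + B(x) ≥ (1 + δ) π(x)` for all large `x` (for instance `A = B` of relative lower density more than one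
half), then almost all multiples of `M` have at least `(δ - ε) n² / (φ(n) log² n)` representations as a sum of
a prime in `A` and a prime in `B`; for `A = B = ` all primes (`δ = 1`) this is the order of magnitude of the
problem, with the asymptotically right constant.
-/

set_option autoImplicit false

namespace Pool.Agent.Results.MP_629a14_nt.DensePrimeSets

open Finset

/-- `A(x)`: the number of the primes `p ≤ x` in `A`. -/
noncomputable def count (A : Set ℕ) (x : ℕ) : ℕ := {p : ℕ | p.Prime ∧ p ≤ x ∧ p ∈ A}.ncard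

/-- The number of the ordered representations `n = p + q` with a prime `p` in `A` and a prime `q` in `B`. -/
noncomputable def r (A B : Set ℕ) (n : ℕ) : ℕ :=
  {x : ℕ × ℕ | x.1.Prime ∧ x.2.Prime ∧ x.1 ∈ A ∧ x.2 ∈ B ∧ x.1 + x.2 = n}.ncard

/-- `n² / (φ(n) log² n)`. -/
noncomputable def order (n : ℕ) : ℝ := (n : ℝ) ^ 2 / (Nat.totient n * Real.log n ^ 2)

/-- The number of the multiples `1 ≤ n ≤ N` of `M` with the property `P`. -/
noncomputable def multiples (M N : ℕ) (P : ℕ → Prop) : ℕ := {n : ℕ | 1 ≤ n ∧ n ≤ N ∧ M ∣ n ∧ P n}.ncard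

lemma count_eq (A : Set ℕ) (x : ℕ) : count A x = (Pool.Agent.N733.DG.SA A x).card := by
  unfold count
  rw [← Set.ncard_coe_finset]
  congr 1
  ext p
  rw [mem_coe, Pool.Agent.N733.DG.mem_SA]
  constructor
  · rintro ⟨a, b, c⟩
    exact ⟨⟨⟨a.one_le, b⟩, a⟩, c⟩
  · rintro ⟨⟨⟨_, b⟩, a⟩, c⟩
    exact ⟨a, b, c⟩

lemma r_eq (A B : Set ℕ) (n : ℕ) : r A B n = Pool.Agent.N733.DG.rAB A B n := by
  unfold r Pool.Agent.N733.DG.rAB
  symm
  apply Set.ncard_congr (fun p _ => (p, n - p))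
  · rintro p ⟨h1, h2, h3, h4, h5⟩
    exact ⟨h2, h4, h3, h5, by simp only; omega⟩
  · intro a b _ _ hab
    exact (Prod.mk.inj hab).1
  · rintro ⟨p, q⟩ ⟨h1, h2, h3, h4, h5⟩
    simp only at h1 h2 h3 h4 h5
    have e : n - p = q := by omega
    refine ⟨p, ⟨by omega, h1, h3, by rw [e]; exact h2, by rw [e]; exact h4⟩, by rw [e]⟩

lemma r_univ (A : Set ℕ) (n : ℕ) : r A Set.univ n = Pool.Agent.N733.DG.rA A n := by
  rw [r_eq]
  unfold Pool.Agent.N733.DG.rAB Pool.Agent.N733.DG.rA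
  rw [← Set.ncard_coe_finset]
  congr 1
  ext p
  rw [mem_coe, mem_filter, Pool.Agent.N733.DG.mem_SA]
  constructor
  · rintro ⟨a, b, c, d, _⟩
    exact ⟨⟨⟨⟨b.one_le, a⟩, b⟩, c⟩, d⟩
  · rintro ⟨⟨⟨⟨_, a⟩, b⟩, c⟩, d⟩
    exact ⟨a, b, c, d, Set.mem_univ _⟩

lemma mult_le (M N : ℕ) (P : ℕ → Prop) (S : Finset ℕ) (h : ∀ n, 1 ≤ n → n ≤ N → M ∣ n → P n → n ∈ S) :
    multiples M N P ≤ S.card := by
  unfold multiples
  rw [← Set.ncard_coe_finset]
  apply Set.ncard_le_ncard _ (Finset.finite_toSet S)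
  rintro n ⟨h1, h2, h3, h4⟩
  exact h n h1 h2 h3 h4

lemma two_reps (A B : Set ℕ) (n : ℕ) (h : 2 ≤ r A B n) :
    ∃ p q : ℕ, p.Prime ∧ q.Prime ∧ p ∈ A ∧ q ∈ B ∧ p ≠ q ∧ p + q = n := by
  unfold r at h
  have hfin : ({x : ℕ × ℕ | x.1.Prime ∧ x.2.Prime ∧ x.1 ∈ A ∧ x.2 ∈ B ∧ x.1 + x.2 = n}).Finite := by
    apply Set.finite_of_ncard_pos
    omega
  obtain ⟨x, y, hx, hy, hxy⟩ := (Set.one_lt_ncard_iff hfin).1 h
  obtain ⟨a1, a2, a3, a4, a5⟩ := hx
  obtain ⟨b1, b2, b3, b4, b5⟩ := hy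
  by_cases h1 : x.1 = x.2
  · by_cases h2 : y.1 = y.2
    · exact absurd (Prod.ext (by omega) (by omega)) hxy
    · exact ⟨y.1, y.2, b1, b2, b3, b4, h2, b5⟩
  · exact ⟨x.1, x.2, a1, a2, a3, a4, h1, a5⟩

lemma order_large (c : ℝ) (hc : 0 < c) : ∃ n₀ : ℕ, ∀ n : ℕ, n₀ ≤ n → 2 ≤ c * order n := by
  obtain ⟨n1, hn1⟩ := Pool.Agent.H373R2.T7.ev_log' 1 1
  obtain ⟨n2, hn2⟩ := Pool.Agent.H373R2.T7.ev_log' 2 (2 / c)
  refine ⟨max (max n1 n2) 3, fun n hn => ?_⟩
  have h1 := hn2 n (le_trans (le_trans (le_max_right _ _) (le_max_left _ _)) hn)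
  have hn3 : 3 ≤ n := le_trans (le_max_right _ _) hn
  have hnr : (3 : ℝ) ≤ n := by exact_mod_cast hn3
  have hl : 0 < Real.log n := Real.log_pos (by linarith)
  have hn0 : (0 : ℝ) < n := by linarith
  have hphi : (0 : ℝ) < Nat.totient n := by exact_mod_cast Nat.totient_pos.2 (by omega : 0 < n)
  have hphi2 : (Nat.totient n : ℝ) ≤ n := by exact_mod_cast Nat.totient_le n
  have hss : √(n : ℝ) * √n = n := Real.mul_self_sqrt hn0.le
  have hs1 : 1 ≤ √(n : ℝ) := by rw [← Real.sqrt_one]; exact Real.sqrt_le_sqrt (by linarith)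
  have h2 : √(n : ℝ) ≤ n := by nlinarith
  have h3 : 2 * Real.log n ^ 2 ≤ c * n := by
    rw [div_mul_eq_mul_div, div_le_iff₀ hc] at h1
    calc 2 * Real.log n ^ 2 ≤ √n * c := h1
      _ ≤ n * c := mul_le_mul_of_nonneg_right h2 hc.le
      _ = _ := mul_comm _ _
  unfold order
  rw [mul_div_assoc', le_div_iff₀ (by positivity)]
  calc 2 * ((Nat.totient n : ℝ) * Real.log n ^ 2) = Nat.totient n * (2 * Real.log n ^ 2) := by ring
    _ ≤ n * (c * n) := mul_le_mul hphi2 h3 (by positivity) hn0.le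
    _ = _ := by ring

/-- For every `ε > 0` there is a `y₀` with the following property. Let `y ≥ y₀`, and let `M` be a positive integer
whose prime divisors are exactly the primes `p ≤ y` (for instance their product). (1) There is an `N₀` such that
for all `N ≥ N₀` and ALL sets `A` of integers, all but at most `ε N / M` of the multiples `n ≤ N` of `M` satisfy
`|r(A, all; n) - (n / φ(n)) A(n) / log n| ≤ ε n² / (φ(n) log² n)`. (2) If `A` and `B` are two sets of integers and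
`δ` is a real number with `A(x) + B(x) ≥ (1 + δ) π(x)` for all large `x`, then for all large `N` all but at most
`ε N / M` of the multiples `n ≤ N` of `M` satisfy `r(A, B; n) ≥ (δ - ε) n² / (φ(n) log² n)`, and (3) if `δ > ε`,
then they are sums of a prime in `A` and a different prime in `B`. -/
theorem result (ε : ℝ) (hε : 0 < ε) : ∃ y₀ : ℕ, ∀ y : ℕ, y₀ ≤ y → ∀ M : ℕ, 1 ≤ M →
    (∀ p : ℕ, p.Prime → (p ∣ M ↔ p ≤ y)) →
    (∃ N₀ : ℕ, ∀ N : ℕ, N₀ ≤ N → ∀ A : Set ℕ,
      (multiples M N (fun n => ¬ |(r A Set.univ n : ℝ) - (n : ℝ) / Nat.totient n * (count A n / Real.log n)| ≤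
        ε * order n) : ℝ) ≤ ε * (N / M)) ∧
    (∀ (A B : Set ℕ) (δ : ℝ), (∃ x₀ : ℕ, ∀ x : ℕ, x₀ ≤ x → (1 + δ) * (count Set.univ x : ℝ) ≤ count A x + count B x) →
      ∃ N₀ : ℕ, ∀ N : ℕ, N₀ ≤ N →
        (multiples M N (fun n => ¬ (δ - ε) * order n ≤ (r A B n : ℝ)) : ℝ) ≤ ε * (N / M) ∧
        (ε < δ → (multiples M N (fun n => ¬ ∃ p q : ℕ, p.Prime ∧ q.Prime ∧ p ∈ A ∧ q ∈ B ∧ p ≠ q ∧ p + q = n) : ℝ) ≤
          ε * (N / M))) := by
  classical
  obtain ⟨y1, hy1⟩ := Pool.Agent.N733.DG.asym2 ε hε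
  obtain ⟨y2, hy2⟩ := Pool.Agent.N733.DG.sumset (ε / 2) (by positivity)
  refine ⟨max y1 y2, fun y hy M hM1 hMp => ⟨?_, fun A B δ => ?_⟩⟩
  · obtain ⟨N0, hN0⟩ := hy1 y (le_trans (le_max_left _ _) hy) M hM1 hMp
    refine ⟨N0, fun N hN A => ?_⟩
    have h := hN0 N hN A
    refine le_trans (Nat.cast_le.2 (mult_le _ _ _ _ ?_)) h
    intro n h1 h2 h3 h4
    rw [mem_filter, mem_Icc]
    rw [count_eq, r_univ, not_le] at h4
    exact ⟨⟨h1, h2⟩, h3, h4⟩
  · rintro ⟨x0, hx0⟩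
    obtain ⟨N1, hN1⟩ := hy2 y (le_trans (le_max_right _ _) hy) M hM1 hMp A B δ ⟨x0, fun x hx => by
      have := hx0 x hx
      rwa [count_eq, count_eq, count_eq] at this⟩
    have hMr : (1 : ℝ) ≤ M := by exact_mod_cast hM1
    obtain ⟨K, hK2, hK⟩ : ∃ K : ℕ, 3 ≤ K ∧ (ε < δ → ∀ n : ℕ, K ≤ n → 2 ≤ (δ - ε / 2) * order n) := by
      by_cases hδ : ε < δ
      · obtain ⟨n0, hn0⟩ := order_large (δ - ε / 2) (by linarith)
        exact ⟨max n0 3, le_max_right _ _, fun _ n hn => hn0 n (le_trans (le_max_left _ _) hn)⟩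
      · exact ⟨3, le_rfl, fun h => absurd h hδ⟩
    obtain ⟨N2, hN2⟩ := exists_nat_ge (2 * K * M / ε)
    refine ⟨max N1 N2, fun N hN => ?_⟩
    have h := hN1 N (le_trans (le_max_left _ _) hN)
    have hNM : 0 ≤ (N : ℝ) / M := by positivity
    have hK3 : (K : ℝ) ≤ ε / 2 * (N / M) := by
      have : 2 * K * M / ε ≤ N := hN2.trans (by exact_mod_cast le_trans (le_max_right _ _) hN)
      rw [div_le_iff₀ hε] at this
      rw [mul_div_assoc', le_div_iff₀ (by linarith)]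
      linarith
    obtain ⟨E, hE⟩ : ∃ E, E = (Icc 1 N).filter (fun n => M ∣ n ∧ (Pool.Agent.N733.DG.rAB A B n : ℝ) < (δ - ε / 2) * Pool.Agent.N733.DG.ord n) := ⟨_, rfl⟩
    rw [← hE] at h
    constructor
    · have h1 : (multiples M N (fun n => ¬ (δ - ε) * order n ≤ (r A B n : ℝ)) : ℝ) ≤ E.card := by
        apply Nat.cast_le.2 (mult_le _ _ _ _ ?_)
        intro n h1 h2 h3 h4
        rw [hE, mem_filter, mem_Icc]
        rw [r_eq, not_le] at h4
        refine ⟨⟨h1, h2⟩, h3, lt_of_lt_of_le h4 ?_⟩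
        have hord : 0 ≤ order n := by
          unfold order
          positivity
        exact mul_le_mul_of_nonneg_right (by linarith) hord
      have : 0 ≤ ε / 2 * ((N : ℝ) / M) := by positivity
      linarith
    · intro hδ
      have h1 : multiples M N (fun n => ¬ ∃ p q : ℕ, p.Prime ∧ q.Prime ∧ p ∈ A ∧ q ∈ B ∧ p ≠ q ∧ p + q = n) ≤ (E ∪ Icc 1 K).card := by
        apply mult_le
        intro n h1 h2 h3 h4
        rw [hE, mem_union, mem_filter, mem_Icc, mem_Icc]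
        by_cases hnK : n ≤ K
        · exact Or.inr ⟨h1, hnK⟩
        · left
          refine ⟨⟨h1, h2⟩, h3, ?_⟩
          by_contra hcon
          push Not at hcon
          apply h4
          apply two_reps
          have h5 := hK hδ n (by omega)
          have h6 : (2 : ℝ) ≤ (r A B n : ℝ) := by
            rw [r_eq]
            exact h5.trans hcon
          exact_mod_cast h6
      have h1 := h1.trans (card_union_le _ _)
      rw [Nat.card_Icc, Nat.add_sub_cancel] at h1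
      have h2 : (multiples M N (fun n => ¬ ∃ p q : ℕ, p.Prime ∧ q.Prime ∧ p ∈ A ∧ q ∈ B ∧ p ≠ q ∧ p + q = n) : ℝ) ≤ E.card + K := by
        exact_mod_cast h1
      have : (K : ℝ) ≤ ε / 2 * (N / M) := hK3
      linarith

end Pool.Agent.Results.MP_629a14_nt.DensePrimeSets
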