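import Mathlib
import Pool.Agent.N679.SD.Str
import Pool.Agent.N679.SD.Kn
import Pool.Agent.N679.GB.Glu2

/-!
# Five ninths of the even numbers in every window are sums of two primes, or Polignac for almost all multiples

One of the following two statements holds.

1. There are `N`, `B`, `δ > 0` and `C` such that in EVERY interval of length `H` all but `C H ^ (1 - δ)` of the
   multiples `a` of `N` are infinitely often differences of two primes (for arbitrarily large `x` there are at least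
   `x / (log x) ^ B` primes `q ≤ x` with `a + q` prime).
2. For every `ε > 0` there is a `C` such that for all `b`, all residue classes and all sufficiently large `M` and `H`
   at least `5/9 - ε` of the `m` of the class with `gcd (m, b) = 1`, `2 ∣ m b` in the interval `(M, M + H]` have at
   least `m / (log m) ^ C` representations `m = p + b q` with primes `p`, `q`. For `b = 1`: five ninths of the even
   numbers in every window of bounded length far to the right, also in residue classes, are sums of two primes.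

The coloured Maynard-Tao theorem with the constant `18/5` (`Pool.Agent.Y827.RO.lamRD`) is from the
starting files.
-/

set_option autoImplicit false

namespace Pool.Agent.Results.MP_629a14_nt.FiveNinthsOrPolignac

open Finset Filter

/-- the number of the primes `q` for which `m - b q` is a prime, that is, the number of the representations
`m = p + b q` -/
noncomputable def reps (b m : ℤ) : ℕ := {q : ℕ | q.Prime ∧ ∃ p : ℕ, p.Prime ∧ (p : ℤ) + b * q = m}.ncard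

/-- the local condition for `m = p + b q`: for `b = 1` this means that `m` is even -/
def Adm (m b : ℤ) : Prop := Int.gcd m b = 1 ∧ 2 ∣ m * b

/-- `m` satisfies the local condition and has at least `m / (log m) ^ C` representations `m = p + b q` -/
def ManyReps (C : ℕ) (b m : ℤ) : Prop := Adm m b ∧ (m : ℝ) / (Real.log m) ^ C ≤ reps b m

/-- `a` is infinitely often a difference of two primes `p - q`; moreover, there are arbitrarily large `x` with at
least `x / (log x) ^ B` primes `q ≤ x` for which `a + q` is prime -/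
def Polignac (B : ℕ) (a : ℤ) : Prop :=
  {q : ℕ | q.Prime ∧ ∃ p : ℕ, p.Prime ∧ (p : ℤ) - q = a}.Infinite ∧
    ∃ᶠ x : ℕ in atTop,
      (x : ℝ) / (Real.log x) ^ B ≤ ({q : ℕ | q ≤ x ∧ q.Prime ∧ ∃ p : ℕ, p.Prime ∧ (p : ℤ) - q = a}.ncard : ℝ)

theorem pol_of {B : ℕ} {a : ℤ} (h : Pool.Agent.N679.PD.Oft B a 1) : Polignac B a := by
  have e : ∀ q p : ℕ, (a + (q : ℤ) * 1 = p) ↔ ((p : ℤ) - q = a) := fun q p => by omega
  obtain ⟨_, h2⟩ := h
  unfold Pool.Agent.N679.PD.cnt at h2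
  simp only [e] at h2
  exact ⟨Pool.Agent.R493.OT.infinite_of_freq (B := B) h2, h2⟩

open Classical in
theorem result :
    -- differences of primes
    (∃ N B : ℕ, 1 ≤ N ∧ ∃ δ C : ℝ, 0 < δ ∧ ∀ (A : ℤ) (H : ℕ), 1 ≤ H →
      (((Ioc A (A + H)).filter (fun a : ℤ => (N : ℤ) ∣ a ∧ ¬ Polignac B a)).card : ℝ) ≤ C * (H : ℝ) ^ (1 - δ)) ∨
    -- sums of primes
    (∀ ε : ℝ, 0 < ε → ∃ C : ℕ, ∀ b N : ℕ, 1 ≤ b → 1 ≤ N → ∀ r : ℤ, ∃ L : ℕ, ∀ M H : ℕ, L ≤ M → L ≤ H →
      (5 / 9 - ε) * (((Ioc (M : ℤ) (M + H)).filter (fun m : ℤ => (N : ℤ) ∣ m - r ∧ Adm m b)).card : ℝ) ≤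
        (((Ioc (M : ℤ) (M + H)).filter (fun m : ℤ => (N : ℤ) ∣ m - r ∧ ManyReps C b m)).card : ℝ)) := by
  by_cases h1 : ∃ N B : ℕ, 1 ≤ N ∧ ∃ δ C : ℝ, 0 < δ ∧ ∀ (A : ℤ) (H : ℕ), 1 ≤ H →
      (((Ioc A (A + H)).filter (fun a : ℤ => (N : ℤ) ∣ a ∧ ¬ Polignac B a)).card : ℝ) ≤ C * (H : ℝ) ^ (1 - δ)
  · exact Or.inl h1
  right
  push Not at h1
  intro ε hε
  obtain ⟨ε', hε'0, hε'1, hε'2⟩ : ∃ ε' : ℝ, 0 < ε' ∧ ε' ≤ 1 / 40 ∧ 2 * ε' ≤ ε :=
    ⟨min (ε / 2) (1 / 40), lt_min (by linarith) (by norm_num), min_le_right _ _, by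
      linarith [min_le_left (ε / 2) (1 / 40)]⟩
  obtain ⟨n₀, hn₀⟩ := Pool.Agent.N679.SD.str Pool.Agent.N679.SD.s_kn ε' hε'0 hε'1
  set n : ℕ := max n₀ 1 with hn
  have hn1 : 1 ≤ n := le_max_right _ _
  obtain ⟨K, hK, hmany⟩ := Pool.Agent.N679.GB.many2 n hn1
  refine ⟨4 * n * K + 3, fun b N₀ hb hN₀ r => ?_⟩
  by_contra hcon
  push Not at hcon
  set N₁ : ℕ := N₀ * (2 * (4 * n * K).factorial * b) with hN₁
  have hfac : 0 < (4 * n * K).factorial := Nat.factorial_pos _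
  have hN₁1 : 1 ≤ N₁ := by
    rw [hN₁]
    have : 0 < N₀ * (2 * (4 * n * K).factorial * b) := by positivity
    exact this
  have h2 : 2 ∣ N₁ := ⟨N₀ * ((4 * n * K).factorial * b), by rw [hN₁]; ring⟩
  have hbN : b ∣ N₁ := ⟨N₀ * (2 * (4 * n * K).factorial), by rw [hN₁]; ring⟩
  have hNN : N₀ ∣ N₁ := Dvd.intro _ rfl
  have hNp : ∀ p : ℕ, p.Prime → p ≤ 4 * n * K → p ∣ N₁ := by
    intro p hp hle
    refine ((Nat.Prime.dvd_factorial hp).2 hle).trans ⟨N₀ * (2 * b), ?_⟩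
    rw [hN₁]; ring
  set N : ℕ := b * N₁ with hN
  have hN1 : 1 ≤ N := Nat.mul_pos hb hN₁1
  have hN1N : N₁ ∣ N := Dvd.intro_left _ rfl
  obtain ⟨α, hα0, hα1, hα, hU⟩ := Pool.Agent.N679.GB.dens2 (d := b) (N := N) (N₀ := N₀) hN1 (h2.trans hN1N)
    (hbN.trans hN1N) (hNN.trans hN1N) r
    (fun m => ManyReps (4 * n * K + 3) b m) (fun a h => h.1) (4 / 9 + 2 * ε') (4 / 9 + ε') (by positivity) (by linarith) (by
      intro L
      obtain ⟨M, H, hLM, hLH, h⟩ := hcon L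
      refine ⟨M, H, hLM, hLH, h.trans_le ?_⟩
      exact mul_le_mul_of_nonneg_right (by linarith) (Nat.cast_nonneg _))
  obtain ⟨U, hU1, _, hU3⟩ := Pool.Agent.N679.GB.limset (P := fun u s =>
    ¬ ManyReps (4 * n * K + 3) b (α + N * ((u : ℤ) + s))) hU
  obtain ⟨q, K', hq, hK', hstr⟩ := hn₀ n (le_max_left _ _) b hb U hU1 K hK
  obtain ⟨C, hC⟩ := Pool.Agent.N679.SD.rect K' hK'
  have hK'0 : (0 : ℝ) < K' := by exact_mod_cast hK'
  obtain ⟨A, H, hH, hcard⟩ := h1 (N * q) (4 * n * K + 3) (Nat.mul_pos hN1 hq) (1 / (K' : ℝ)) C (by positivity)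
  obtain ⟨l, l', hl, hl', hll⟩ := hC N q (h2.trans hN1N) hN1 hq A H hH _ (filter_subset _ _)
    (fun a ha => (mem_filter.1 ha).2.1) hcard
  obtain ⟨X, Z, hX, hZ, _, hXV, hZV, hS⟩ := hstr {s : ℤ | ¬ Polignac (4 * n * K + 3) (N * s)}
    ⟨l, l', hl, hl', fun i j => (mem_filter.1 (hll i j)).2.2⟩
  obtain ⟨R₁, hR₁⟩ : ∃ R₁ : ℕ, ∀ a i k a' j k', Z a' j k' - b * X a i k ≤ R₁ := by
    obtain ⟨M, hM⟩ := (Set.finite_range (fun x : (Bool × Fin n × Fin K) × (Bool × Fin n × Fin K) =>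
      Z x.2.1 x.2.2.1 x.2.2.2 - b * X x.1.1 x.1.2.1 x.1.2.2)).bddAbove
    exact ⟨M.toNat, fun a i k a' j k' => (hM ⟨((a, i, k), (a', j, k')), rfl⟩).trans (Int.self_le_toNat M)⟩
  refine Pool.Agent.N679.GB.glue2 hmany hb hN₁1 h2 hNp hbN hN hα X Z hX hZ
    (fun i k k' h => hXV i k k' (pol_of h)) (fun i k k' h => hZV i k k' (pol_of h)) (fun R => ?_)
  obtain ⟨u, hu, hbad⟩ := hU3 (max R R₁)
  refine ⟨u, (le_max_left _ _).trans hu, fun S S' hd hd' hcard => ?_⟩
  obtain ⟨a, a', i, hi, j, hj, h⟩ := hS S S' hd hd' hcard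
  refine ⟨a, a', i, hi, j, hj, fun k k' => ?_⟩
  have h3 := hbad _ (h k k') ((hR₁ a i k a' j k').trans (by exact_mod_cast le_max_right _ _))
  by_contra hno
  push Not at hno
  refine h3 ⟨?_, hno⟩
  refine Pool.Agent.N679.SD.adm_shift (h2.trans hN1N) (by exact_mod_cast hbN.trans hN1N) ?_ hα
  rw [add_sub_cancel_left]
  exact Dvd.intro _ rfl

end Pool.Agent.Results.MP_629a14_nt.FiveNinthsOrPolignac
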