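import Pool.Agent.N666.PS.Near
import Pool.Agent.TH894.SM0

/-!
# Goldbach representation numbers of all even integers near the values of a generalised polynomial

Let `f (t) = ∑ a_x t ^ x` be a finite sum of real powers of `t` (the exponents may be arbitrary real numbers) whose
largest exponent `c > 1` is not an integer and has a positive coefficient, for instance `f (t) = t ^ c`, whose
values are approximated by the sequence of Piatetski-Shapiro. For all but at most `X / log ^ U X` of the `n ≤ X`,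
EVERY even integer `m > 0` at a distance of at most `log ^ W X` from `f (n)` has the predicted number of
representations as a sum of two primes, with the first prime in an arbitrary interval of length at least
`m / log ^ A m`, and this number has the order of magnitude asked for in the problem.

Definitions used from `Pool.Agent.H560R3.GB` (starting files): `C₂`: the twin prime constant
`∏_{p > 2} (1 - 1 / (p - 1) ^ 2)`; `sing m`: the singular series `2 C₂ ∏_{p ∣ m, p > 2} (p - 1) / (p - 2)`.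
-/

set_option autoImplicit false

namespace Pool.Agent.Results.MP_629a14_nt.PiatetskiShapiroNeighbourhoods

open Finset
open Pool.Agent.H560R3.GB (sing C₂)

/-- The number of primes `p`, `y₁ < p ≤ y₂`, for which `m - p` is a prime (used for `y₂ ≤ m`; for `y₁ = 0` and
`y₂ = m` this is the number of ordered representations of `m` as a sum of two primes). -/
def R (m y₁ y₂ : ℕ) : ℕ := ((Ioc y₁ y₂).filter (fun p => p.Prime ∧ (m - p).Prime)).card

/-- For all `y₁ < y₂ ≤ m` with `y₂ - y₁ ≥ m / log ^ A m`, the number `R m y₁ y₂` agrees with the prediction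
`sing m * (y₂ - y₁) / log ^ 2 m` up to a relative error of at most `ε`, and lies between `(1 - ε) C₂` and `1 + ε`
times `(y₂ - y₁) m / (φ(m) log ^ 2 m)`. -/
def Holds (ε : ℝ) (A m : ℕ) : Prop :=
  ∀ y₁ y₂ : ℕ, y₁ < y₂ → y₂ ≤ m → (m : ℝ) / Real.log m ^ A ≤ (y₂ : ℝ) - y₁ →
    |(R m y₁ y₂ : ℝ) - sing m * ((y₂ : ℝ) - y₁) / Real.log m ^ 2| ≤ ε * (sing m * ((y₂ : ℝ) - y₁) / Real.log m ^ 2) ∧
    (1 - ε) * C₂ * (((y₂ : ℝ) - y₁) * m / (m.totient * Real.log m ^ 2)) ≤ R m y₁ y₂ ∧
    (R m y₁ y₂ : ℝ) ≤ (1 + ε) * (((y₂ : ℝ) - y₁) * m / (m.totient * Real.log m ^ 2))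

/-- The generalised polynomial with the exponents `x ∈ F` and the coefficients `a x`. -/
noncomputable def f (F : Finset ℝ) (a : ℝ → ℝ) (t : ℝ) : ℝ := ∑ x ∈ F, a x * t ^ x

open Classical in
/-- The number of the `n ≤ X` for which `Holds` fails for some even integer `m > 0` at a distance of at most
`log ^ W X` from `f n`. -/
noncomputable def exceptions (F : Finset ℝ) (a : ℝ → ℝ) (ε : ℝ) (A W X : ℕ) : ℕ :=
  ((Icc 1 X).filter (fun n : ℕ => ∃ m : ℕ, 0 < m ∧ Even m ∧ |(m : ℝ) - f F a n| ≤ Real.log X ^ W ∧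
    ¬ Holds ε A m)).card

lemma C₂_nonneg : 0 ≤ C₂ := by
  unfold C₂
  apply Real.iInf_nonneg
  intro z
  apply prod_nonneg
  intro p hp
  rw [mem_filter, mem_Icc] at hp
  exact (Pool.Agent.TH894.SM.fac_pos p hp.1.1).le

lemma holds_of (ε : ℝ) (A : ℕ) (hε : 0 < ε) (m : ℕ) (hm : 3 ≤ m) (h2 : 2 ∣ m)
    (h : Pool.Agent.W93.PG.WinP ε A m) : Holds ε A m := by
  intro y₁ y₂ h12 hy hlen
  have h1 := h y₁ y₂ h12 hy hlen
  have e0 : Pool.Agent.W93.PG.cnt m y₁ y₂ = R m y₁ y₂ := rfl
  rw [e0] at h1
  refine ⟨h1, ?_⟩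
  have hn0 : m ≠ 0 := by omega
  have hnr : (0 : ℝ) < m := by exact_mod_cast Nat.pos_of_ne_zero hn0
  have hl : 0 < Real.log m := Real.log_pos (by exact_mod_cast (by omega : 1 < m))
  have ht : (0 : ℝ) < m.totient := by exact_mod_cast Nat.totient_pos.2 (Nat.pos_of_ne_zero hn0)
  obtain ⟨s1, s2⟩ := Pool.Agent.TH894.SM.sing_tot m hn0 h2
  have hC := C₂_nonneg
  have hy' : (y₁ : ℝ) < y₂ := by exact_mod_cast h12
  obtain ⟨Q, hQ⟩ : ∃ Q : ℝ, Q = ((y₂ : ℝ) - y₁) / Real.log m ^ 2 := ⟨_, rfl⟩
  have hQ0 : 0 < Q := by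
    rw [hQ]
    apply div_pos (by linarith) (by positivity)
  have e : ((y₂ : ℝ) - y₁) * m / (m.totient * Real.log m ^ 2) = m / m.totient * Q := by
    rw [hQ]
    field_simp
  have hHL : sing m * ((y₂ : ℝ) - y₁) / Real.log m ^ 2 = sing m * Q := by
    rw [hQ]
    ring
  rw [hHL, abs_le] at h1
  rw [e]
  constructor
  · rcases le_or_gt ε 1 with hε1 | hε1
    · have h3 : (1 - ε) * (C₂ * (m / m.totient) * Q) ≤ (1 - ε) * (sing m * Q) := by
        apply mul_le_mul_of_nonneg_left _ (by linarith)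
        exact mul_le_mul_of_nonneg_right s1 hQ0.le
      have e2 : (1 - ε) * C₂ * (m / m.totient * Q) = (1 - ε) * (C₂ * (m / m.totient) * Q) := by ring
      rw [e2]
      linarith [h1.1]
    · have h3 : (1 - ε) * C₂ * (m / m.totient * Q) ≤ 0 := by
        apply mul_nonpos_of_nonpos_of_nonneg _ (by positivity)
        exact mul_nonpos_of_nonpos_of_nonneg (by linarith) hC
      exact h3.trans (Nat.cast_nonneg _)
  · have h3 : (1 + ε) * (sing m * Q) ≤ (1 + ε) * (m / m.totient * Q) := by
      apply mul_le_mul_of_nonneg_left _ (by linarith)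
      exact mul_le_mul_of_nonneg_right s2 hQ0.le
    linarith [h1.2]

/-- Let `f (t) = ∑ x ∈ F, a x * t ^ x`, where `F` is a finite set of real exponents whose largest element `c` is
larger than `1` and not an integer, and where `a c > 0`. Let `A`, `W`, `U` and `ε > 0` be fixed, and let `X` be large.

Then for all but at most `X / log ^ U X` of the `n ≤ X`, ALL the even integers `m > 0` at a distance of at most
`log ^ W X` from `f (n)` have the following property: for all `y₁ < y₂ ≤ m` with `y₂ - y₁ ≥ m / log ^ A m`, the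
number of the representations `m = p + q` with primes `p`, `q` and `y₁ < p ≤ y₂` agrees with the prediction of
Hardy and Littlewood up to a relative error of at most `ε`, and lies between `(1 - ε) C₂` and `1 + ε` times
`(y₂ - y₁) m / (φ(m) log ^ 2 m)` (for `y₁ = 0`, `y₂ = m` this is the order of magnitude in the problem). -/
theorem result (F : Finset ℝ) (a : ℝ → ℝ) (c : ℝ) (hcF : c ∈ F) (hmax : ∀ x ∈ F, x ≤ c) (hac : 0 < a c)
    (hc : 1 < c) (hcn : ∀ k : ℕ, c ≠ k) (A W U : ℕ) (ε : ℝ) (hε : 0 < ε) :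
    ∃ X₀ : ℕ, ∀ X : ℕ, X₀ ≤ X → (exceptions F a ε A W X : ℝ) ≤ X / Real.log X ^ U := by
  classical
  obtain ⟨X₀, h⟩ := Pool.Agent.N666.PS.near_all (F := F) (a := a) (c := c) ⟨hcF, hmax, hac, hc, hcn⟩ A W U 3 ε hε
    (Holds ε A) (fun m hm h2 hw => holds_of ε A hε m hm h2 hw)
  refine ⟨X₀, fun X hX => ?_⟩
  unfold exceptions
  refine h X hX _ (filter_subset _ _) ?_
  intro n hn
  rw [mem_filter] at hn
  exact hn.2

end Pool.Agent.Results.MP_629a14_nt.PiatetskiShapiroNeighbourhoods
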